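import Pool.Agent.H74.OLP.Targets2

/-!
# Cubic maps: small cuts, first part
-/

set_option autoImplicit false
set_option linter.unusedSectionVars false
open Finset Pool.Agent.H74.OLP
open scoped Classical

namespace Pool.Agent.H52.OLP

section

variable {V E F : Type} [Fintype V] [Fintype E] [Fintype F] {M : CMap V E F}

/-- membership in a cut -/
theorem mem_cut {W : Finset V} {e : E} : e ∈ M.cut W ↔
    (M.s e ∈ W ∧ M.t e ∉ W) ∨ (M.t e ∈ W ∧ M.s e ∉ W) := by
  simp [CMap.cut]

/-- the cut of the complement -/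
theorem cut_compl (W : Finset V) : M.cut Wᶜ = M.cut W := by
  ext e
  simp only [mem_cut, Finset.mem_compl, not_not]
  tauto

/-- the edges at a vertex -/
theorem card_at (h : M.OK) (v : V) : (univ.filter fun e => M.OnV e v).card = 3 := by
  obtain ⟨a, b, c, -, -, -, hab, hbc, hac, -, -, -, hv, -⟩ := h.tri v
  have : (univ.filter fun e => M.OnV e v) = {a, b, c} := by
    ext e
    simp [hv e]
  rw [this, Finset.card_eq_three.mpr ⟨a, b, c, hab, hac, hbc, rfl⟩]

/-- the cut of a vertex -/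
theorem cut_single (h : M.OK) (v : V) (e : E) : e ∈ M.cut {v} ↔ M.OnV e v := by
  have hst := h.st e
  rw [mem_cut]
  simp only [Finset.mem_singleton, CMap.OnV]
  constructor
  · rintro (⟨h1, -⟩ | ⟨h1, -⟩)
    · exact Or.inl h1
    · exact Or.inr h1
  · rintro (h1 | h1)
    · exact Or.inl ⟨h1, fun h2 => hst (h1.trans h2.symm)⟩
    · exact Or.inr ⟨h1, fun h2 => hst (h2.trans h1.symm)⟩

/-- the cut of a pair without an edge is large -/
theorem cut_pair_large (h : M.OK) {u v : V} (huv : u ≠ v)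
    (hno : ∀ e, ¬ (M.OnV e u ∧ M.OnV e v)) : 6 ≤ (M.cut {u, v}).card := by
  have hdis : Disjoint (univ.filter fun e => M.OnV e u) (univ.filter fun e => M.OnV e v) := by
    rw [Finset.disjoint_left]
    intro e h1 h2
    exact hno e ⟨(Finset.mem_filter.mp h1).2, (Finset.mem_filter.mp h2).2⟩
  have hsub : (univ.filter fun e => M.OnV e u) ∪ (univ.filter fun e => M.OnV e v) ⊆
      M.cut {u, v} := by
    intro e he
    have hn := hno e
    have hst := h.st e
    rw [mem_cut]
    simp only [Finset.mem_union, Finset.mem_filter, Finset.mem_univ, true_and] at he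
    simp only [Finset.mem_insert, Finset.mem_singleton]
    unfold CMap.OnV at he hn
    rcases he with (h1 | h1) | (h1 | h1)
    · refine Or.inl ⟨Or.inl h1, ?_⟩
      rintro (h2 | h2)
      · exact hst (h1.trans h2.symm)
      · exact hn ⟨Or.inl h1, Or.inr h2⟩
    · refine Or.inr ⟨Or.inl h1, ?_⟩
      rintro (h2 | h2)
      · exact hst (h2.trans h1.symm)
      · exact hn ⟨Or.inr h1, Or.inl h2⟩
    · refine Or.inl ⟨Or.inr h1, ?_⟩
      rintro (h2 | h2)
      · exact hn ⟨Or.inr h2, Or.inl h1⟩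
      · exact hst (h1.trans h2.symm)
    · refine Or.inr ⟨Or.inr h1, ?_⟩
      rintro (h2 | h2)
      · exact hn ⟨Or.inl h2, Or.inr h1⟩
      · exact hst (h2.trans h1.symm)
  have hc := Finset.card_le_card hsub
  rw [Finset.card_union_of_disjoint hdis, card_at h u, card_at h v] at hc
  exact hc

/-- the cut of the two ends of an edge -/
theorem cut_pair_edge (h : M.OK) (hP : M.Par) (e₀ e : E) :
    e ∈ M.cut {M.s e₀, M.t e₀} ↔ (e ≠ e₀ ∧ (M.OnV e (M.s e₀) ∨ M.OnV e (M.t e₀))) := by
  have hst := h.st e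
  have hst0 := h.st e₀
  rw [mem_cut]
  simp only [Finset.mem_insert, Finset.mem_singleton]
  unfold CMap.OnV
  constructor
  · intro hc
    refine ⟨?_, ?_⟩
    · rintro rfl
      rcases hc with ⟨-, h2⟩ | ⟨-, h2⟩
      · exact h2 (Or.inr rfl)
      · exact h2 (Or.inl rfl)
    · rcases hc with ⟨h1 | h1, -⟩ | ⟨h1 | h1, -⟩
      · exact Or.inl (Or.inl h1)
      · exact Or.inr (Or.inl h1)
      · exact Or.inl (Or.inr h1)
      · exact Or.inr (Or.inr h1)
  · rintro ⟨hne, hc⟩
    have hboth : ¬ ((M.s e = M.s e₀ ∨ M.s e = M.t e₀) ∧ (M.t e = M.s e₀ ∨ M.t e = M.t e₀)) := by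
      rintro ⟨h1, h2⟩
      apply hne
      apply hP
      rcases h1 with h1 | h1 <;> rcases h2 with h2 | h2
      · exact absurd (h1.trans h2.symm) hst
      · rw [h1, h2]
      · rw [h1, h2, Sym2.eq_swap]
      · exact absurd (h1.trans h2.symm) hst
    rcases hc with (h1 | h1) | (h1 | h1)
    · exact Or.inl ⟨Or.inl h1, fun h2 => hboth ⟨Or.inl h1, h2⟩⟩
    · exact Or.inr ⟨Or.inl h1, fun h2 => hboth ⟨h2, Or.inl h1⟩⟩
    · exact Or.inl ⟨Or.inr h1, fun h2 => hboth ⟨Or.inr h1, h2⟩⟩
    · exact Or.inr ⟨Or.inr h1, fun h2 => hboth ⟨h2, Or.inr h1⟩⟩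

end

/-- small cuts, first part -/
theorem pf_CSZ : T_CSZ := by
  intro V E F _ _ _ M h hP W
  refine ⟨cut_compl W, ?_, ?_, ?_⟩
  · intro hW
    rw [Finset.card_eq_zero] at hW
    subst hW
    ext e
    simp [mem_cut]
  · intro hW
    obtain ⟨v, rfl⟩ := Finset.card_eq_one.mp hW
    exact ⟨v, cut_single h v⟩
  · intro hW h4
    obtain ⟨u, v, huv, rfl⟩ := Finset.card_eq_two.mp hW
    by_cases hno : ∀ e, ¬ (M.OnV e u ∧ M.OnV e v)
    · have := cut_pair_large h huv hno
      omega
    · push Not at hno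
      obtain ⟨e₀, h1, h2⟩ := hno
      refine ⟨e₀, fun e => ?_⟩
      have hpair : ({u, v} : Finset V) = {M.s e₀, M.t e₀} := by
        rcases h1 with h1 | h1 <;> rcases h2 with h2 | h2
        · exact absurd (h1.symm.trans h2) huv
        · rw [h1, h2]
        · rw [h1, h2, Finset.pair_comm]
        · exact absurd (h1.symm.trans h2) huv
      rw [hpair]
      exact cut_pair_edge h hP e₀ e

end Pool.Agent.H52.OLP
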