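import Pool.Agent.H74.OLP.Targets2

/-!
# Cubic maps: triangles of faces
-/

set_option autoImplicit false
open Finset Pool.Agent.H74.OLP
open scoped Classical

namespace Pool.Agent.H52.OLP

/-- the faces of an edge -/
theorem onF_of_eq {V E F : Type} {M : CMap V E F} {e : E} {x y : F}
    (h : s(M.l e, M.r e) = s(x, y)) : M.OnF e x ∧ M.OnF e y := by
  rw [Sym2.eq_iff] at h
  rcases h with ⟨h1, h2⟩ | ⟨h1, h2⟩
  · exact ⟨Or.inl h1, Or.inr h2⟩
  · exact ⟨Or.inr h2, Or.inl h1⟩

/-- the three faces of a triangle meet in a vertex -/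
theorem pf_CTH (h1 : T_CLS) (h2 : T_NBE) : T_CTH := by
  intro V E F _ _ _ M h hP hF w hw hR e₁ e₂ e₃ x y z hxy hyz hxz g1 g2 g3
  have n12 : e₁ ≠ e₂ := by
    rintro rfl
    rw [g1, Sym2.eq_iff] at g2
    rcases g2 with ⟨a, b⟩ | ⟨a, b⟩
    · exact hxy a
    · exact hxz a
  have n23 : e₂ ≠ e₃ := by
    rintro rfl
    rw [g2, Sym2.eq_iff] at g3
    rcases g3 with ⟨a, b⟩ | ⟨a, b⟩
    · exact hyz a
    · exact hxy a.symm
  have n13 : e₁ ≠ e₃ := by
    rintro rfl
    rw [g1, Sym2.eq_iff] at g3
    rcases g3 with ⟨a, b⟩ | ⟨a, b⟩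
    · exact hxz a
    · exact hyz b
  obtain ⟨W, hW⟩ := hR 3 (by norm_num) (by omega)
    (fun i => if i = 0 then x else if i = 1 then y else if i = 2 then z else x)
    (fun i => if i = 0 then e₁ else if i = 1 then e₂ else e₃)
    (by
      intro i hi j hj hij
      interval_cases i <;> interval_cases j <;> simp_all)
    (by
      intro i hi j hj hij
      interval_cases i <;> interval_cases j <;> simp_all)
    (by simp)
    (by
      intro i hi
      interval_cases i
      · exact onF_of_eq g1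
      · exact onF_of_eq g2
      · exact onF_of_eq g3)
  have hcut : M.cut W = {e₁, e₂, e₃} := by
    ext e
    rw [hW e]
    simp only [Finset.mem_insert, Finset.mem_singleton]
    constructor
    · rintro ⟨i, hi, rfl⟩
      interval_cases i <;> simp
    · rintro (rfl | rfl | rfl)
      · exact ⟨0, by norm_num, by simp⟩
      · exact ⟨1, by norm_num, by simp⟩
      · exact ⟨2, by norm_num, by simp⟩
  have hcard : (M.cut W).card = 3 := by
    rw [hcut]
    exact Finset.card_eq_three.mpr ⟨e₁, e₂, e₃, n12, n13, n23, rfl⟩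
  rcases h1 V E F M h hP hF W (by omega) with h0 | ⟨v, hv⟩ | ⟨e₀, he₀⟩
  · rw [h0] at hcard
    simp at hcard
  · refine ⟨v, (hv e₁).mp ?_, (hv e₂).mp ?_, (hv e₃).mp ?_⟩ <;> rw [hcut] <;> simp
  · obtain ⟨a, b, c, d, p, q, hab, hac, had, hbc, hbd, hcd, hall, -⟩ := h2 V E F M h hP e₀
    have hsub : ({a, b, c, d} : Finset E) ⊆ M.cut W := by
      intro e he
      rw [he₀ e]
      refine (hall e).mpr ?_
      simpa using he
    have h4 : ({a, b, c, d} : Finset E).card = 4 := by
      rw [Finset.card_insert_of_notMem (by simp [hab, hac, had]),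
        Finset.card_insert_of_notMem (by simp [hbc, hbd]),
        Finset.card_insert_of_notMem (by simp [hcd]), Finset.card_singleton]
    have := Finset.card_le_card hsub
    omega

end Pool.Agent.H52.OLP
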