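import Pool.Agent.H74.OLP.Targets2

/-!
# Cubic maps: corner functions give even sets
-/

set_option autoImplicit false
open Finset Pool.Agent.H74.OLP
open scoped Classical

namespace Pool.Agent.H52.OLP

/-- telescoping mod 2 -/
theorem tele (a : ℕ → R) (n : ℕ) : ∑ i ∈ Finset.range n, (a i + a (i + 1)) = a 0 + a n := by
  induction n with
  | zero => simp [R2]
  | succ n ih =>
    rw [Finset.sum_range_succ, ih]
    linear_combination R2 (a n)

/-- the value at a face -/
theorem cor_face {V E F : Type} {M : CMap V E F} {θ : V → F → R} {x D : E → R}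
    (hc : M.Cor θ x D) {e : E} {f : F} (hf : M.OnF e f) : θ (M.s e) f + θ (M.t e) f = x e := by
  obtain ⟨c1, c2, -, -⟩ := hc e
  rcases hf with rfl | rfl
  · exact c1
  · exact c2

/-- the value at a vertex -/
theorem cor_vert {V E F : Type} {M : CMap V E F} {θ : V → F → R} {x D : E → R}
    (hc : M.Cor θ x D) {e : E} {v : V} (hv : M.OnV e v) : θ v (M.l e) + θ v (M.r e) = D e := by
  obtain ⟨-, -, c3, c4⟩ := hc e
  rcases hv with rfl | rfl
  · exact c3
  · exact c4

/-- the faces of an edge from the characterization -/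
theorem face_sum {V E F : Type} {M : CMap V E F} (hlr : ∀ e, M.l e ≠ M.r e) {e : E} {y z : F}
    (h : ∀ f, M.OnF e f ↔ (f = y ∨ f = z)) (g : F → R) : g (M.l e) + g (M.r e) = g y + g z := by
  have h1 := (h (M.l e)).mp (Or.inl rfl)
  have h2 := (h (M.r e)).mp (Or.inr rfl)
  rcases h1 with h1 | h1 <;> rcases h2 with h2 | h2
  · exact absurd (h1.trans h2.symm) (hlr e)
  · rw [h1, h2]
  · rw [h1, h2, add_comm]
  · exact absurd (h1.trans h2.symm) (hlr e)

/-- corner functions give even sets -/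
theorem pf_CZZ (h1 : T_ZGV) (h2 : T_ZTF) : T_CZZ := by
  intro V E F _ _ _ M h θ x D hc
  constructor
  · intro f
    rw [h2 V E F M h x f]
    have hx : ∀ i : ℕ, x (M.ed f i) =
        (fun j : ℕ => θ (M.vt f j) f) i + (fun j : ℕ => θ (M.vt f j) f) (i + 1) := by
      intro i
      have hf : M.OnF (M.ed f i) f := (h.on _ f).mpr ⟨i, rfl⟩
      have := cor_face hc hf
      rw [← this]
      push_cast
      rcases h.jn f i with ⟨ha, hb⟩ | ⟨ha, hb⟩
      · rw [ha, hb]
      · rw [ha, hb, add_comm]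
    rw [Finset.sum_congr rfl fun i _ => hx i, tele]
    have : M.vt f ((M.d f : ℕ) : ℤ) = M.vt f ((0 : ℕ) : ℤ) := by
      rw [h.vt_eq]
      exact ⟨1, by push_cast; ring⟩
    simp only [this]
    exact R2 _
  · intro v
    obtain ⟨a, b, c, y1, y2, y3, hab, hbc, hac, -, -, -, hv, ha, hb, hcc⟩ := h.tri v
    rw [h1 V E F M h D v a b c hab hbc hac hv]
    have ea := cor_vert hc ((hv a).mpr (Or.inl rfl))
    have eb := cor_vert hc ((hv b).mpr (Or.inr (Or.inl rfl)))
    have ec := cor_vert hc ((hv c).mpr (Or.inr (Or.inr rfl)))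
    rw [face_sum h.lr ha (θ v)] at ea
    rw [face_sum h.lr hb (θ v)] at eb
    rw [face_sum h.lr hcc (θ v)] at ec
    rw [← ea, ← eb, ← ec]
    linear_combination R2 (θ v y1) + R2 (θ v y2) + R2 (θ v y3)

end Pool.Agent.H52.OLP
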