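import Pool.Agent.H74.OLP.Targets2

/-!
# Cubic maps: the number of edges
-/

set_option autoImplicit false
open Finset Pool.Agent.H74.OLP
open scoped Classical

namespace Pool.Agent.H52.OLP

/-- twice the number of edges is three times the number of vertices -/
theorem pf_ECT : T_ECT := by
  intro V E F _ _ _ M h
  have key : ∑ e : E, (univ.filter fun v => M.OnV e v).card =
      ∑ v : V, (univ.filter fun e => M.OnV e v).card := by
    simp only [Finset.card_filter]
    exact Finset.sum_comm
  have h1 : ∀ e : E, (univ.filter fun v => M.OnV e v).card = 2 := by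
    intro e
    have : (univ.filter fun v => M.OnV e v) = {M.s e, M.t e} := by
      ext v
      simp [CMap.OnV, eq_comm]
    rw [this, Finset.card_pair (h.st e)]
  have h2 : ∀ v : V, (univ.filter fun e => M.OnV e v).card = 3 := by
    intro v
    obtain ⟨a, b, c, -, -, -, hab, hbc, hac, -, -, -, hv, -⟩ := h.tri v
    have : (univ.filter fun e => M.OnV e v) = {a, b, c} := by
      ext e
      simp [hv e]
    rw [this, Finset.card_eq_three.mpr ⟨a, b, c, hab, hac, hbc, rfl⟩]
  simp only [h1, h2, Finset.sum_const, smul_eq_mul, Finset.card_univ] at key
  omega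

end Pool.Agent.H52.OLP
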