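import Pool.Agent.H74.OLP.Targets2

/-!
# Cubic maps: the sum at a face
-/

set_option autoImplicit false
open Finset Pool.Agent.H74.OLP
open scoped Classical

namespace Pool.Agent.H52.OLP

/-- the edges of a face are the values of `ed` on a period -/
theorem onF_image {V E F : Type} [Fintype E] {M : CMap V E F} (h : M.OK) (f : F) :
    (univ.filter fun e => M.OnF e f) = (Finset.range (M.d f)).image fun i : ℕ => M.ed f i := by
  have h3 := h.d3 f
  ext e
  simp only [Finset.mem_filter, Finset.mem_univ, true_and, Finset.mem_image, Finset.mem_range]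
  rw [h.on e f]
  constructor
  · rintro ⟨i, rfl⟩
    have hd : (0 : ℤ) < (M.d f : ℤ) := by omega
    have h0 : 0 ≤ i % (M.d f : ℤ) := Int.emod_nonneg _ hd.ne'
    have h1 : i % (M.d f : ℤ) < M.d f := Int.emod_lt_of_pos _ hd
    refine ⟨(i % (M.d f : ℤ)).toNat, by omega, ?_⟩
    rw [h.ed_eq, Int.toNat_of_nonneg h0]
    refine ⟨-(i / (M.d f : ℤ)), ?_⟩
    have := Int.emod_add_mul_ediv i (M.d f : ℤ)
    linear_combination this
  · rintro ⟨i, -, rfl⟩
    exact ⟨i, rfl⟩

/-- the sum at a face -/
theorem pf_ZTF : T_ZTF := by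
  intro V E F _ _ _ M h x f
  have h1 : ∀ e, ((if M.l e = f then x e else 0) + (if M.r e = f then x e else 0)) =
      if M.OnF e f then x e else 0 := by
    intro e
    have := h.lr e
    by_cases hl : M.l e = f
    · have hr : M.r e ≠ f := fun hr => this (hl.trans hr.symm)
      simp [CMap.OnF, hl, hr]
    · simp [CMap.OnF, hl]
  simp only [h1]
  rw [← Finset.sum_filter, onF_image h f, Finset.sum_image]
  intro i hi j hj hij
  simp only [Finset.coe_range, Set.mem_Iio] at hi hj
  have hij' : M.ed f (i : ℤ) = M.ed f (j : ℤ) := hij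
  rw [h.ed_eq] at hij'
  obtain ⟨k, hk⟩ := hij'
  have hk0 : k = 0 := by
    by_contra hne
    rcases lt_or_gt_of_ne hne with hlt | hgt
    · have : (M.d f : ℤ) * k ≤ (M.d f : ℤ) * (-1) :=
        mul_le_mul_of_nonneg_left (by omega) (by omega)
      omega
    · have : (M.d f : ℤ) * 1 ≤ (M.d f : ℤ) * k :=
        mul_le_mul_of_nonneg_left (by omega) (by omega)
      omega
  subst hk0
  simp only [mul_zero] at hk
  omega

end Pool.Agent.H52.OLP
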